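import Pool.Agent.Helper27.PHU.Defs

/-!
# PHU-9: approximation by strictly convex bodies (MP_8bf717_co)
-/

set_option autoImplicit false

open MeasureTheory Set
open scoped Pointwise

namespace Pool.Agent.Helper61.PHU

open Pool.Agent.Helper27.PHU Pool.Agent.Helper37.PH Pool.Agent.Helper61.PH

/-- the strictly convex function used -/
noncomputable def Fg (K0 : Set (ℝ × ℝ)) (x0 : ℝ × ℝ) (t : ℝ) (q : ℝ × ℝ) : ℝ :=
  (gauge K0 (q - x0)) ^ 2 + t * ((q - x0).1 ^ 2 + (q - x0).2 ^ 2)

theorem strict_approx {K : Set (ℝ × ℝ)} (hK : IsBody K) {δ : ℝ} (hδ : 0 < δ) :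
    ∃ K' : Set (ℝ × ℝ), SBody K' ∧ K ⊆ K' ∧ volume K' ≤ volume K + ENNReal.ofReal δ := by
  obtain ⟨x0, hx0⟩ := hK.interior_nonempty
  set K0 : Set (ℝ × ℝ) := (fun y => y + x0) ⁻¹' K with hK0
  have hconv : Convex ℝ K0 := hK.convex.translate_preimage_left x0
  have hclosed : IsClosed K0 := hK.compact.isClosed.preimage (by fun_prop)
  have h0 : K0 ∈ nhds (0 : ℝ × ℝ) := by
    have h1 : Continuous fun y : ℝ × ℝ => y + x0 := by fun_prop
    have h2 : K ∈ nhds ((0 : ℝ × ℝ) + x0) := by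
      rw [zero_add]; exact mem_interior_iff_mem_nhds.1 hx0
    exact h1.continuousAt.preimage_mem_nhds h2
  have hgc : Continuous (gauge K0) := continuous_gauge hconv h0
  have habs : Absorbent ℝ K0 := absorbent_nhds_zero h0
  have hg0 : ∀ y, 0 ≤ gauge K0 y := fun y => gauge_nonneg y
  have hg1 : ∀ y, gauge K0 y ≤ 1 ↔ y ∈ K0 := by
    intro y
    rw [gauge_le_one_iff_mem_closure hconv h0, hclosed.closure_eq]
  -- bound for the squared norm
  obtain ⟨R, hR0, hR⟩ : ∃ R : ℝ, 0 < R ∧ ∀ q ∈ K, (q - x0).1 ^ 2 + (q - x0).2 ^ 2 ≤ R := by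
    have hc : Continuous fun q : ℝ × ℝ => (q - x0).1 ^ 2 + (q - x0).2 ^ 2 := by fun_prop
    obtain ⟨R, hR⟩ := hK.compact.bddAbove_image hc.continuousOn
    refine ⟨max R 1, lt_of_lt_of_le one_pos (le_max_right _ _), fun q hq => ?_⟩
    exact (hR ⟨q, hq, rfl⟩).trans (le_max_left _ _)
  have hfin : volume K ≠ ⊤ := hK.compact.measure_lt_top.ne
  set V : ℝ := (volume K).toReal with hV
  have hV0 : 0 ≤ V := ENNReal.toReal_nonneg
  set t : ℝ := δ / (R * (V + 1)) with ht
  have ht0 : 0 < t := by rw [ht]; positivity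
  have htRV : t * R * V ≤ δ := by
    have e : t * R * (V + 1) = δ := by
      rw [ht]; field_simp
    nlinarith [mul_pos ht0 hR0]
  set c : ℝ := Real.sqrt (1 + t * R) with hc
  have hpos : 0 < 1 + t * R := by positivity
  have hc0 : 0 < c := Real.sqrt_pos.2 hpos
  have hc2 : c ^ 2 = 1 + t * R := Real.sq_sqrt hpos.le
  have hFc : Continuous (Fg K0 x0 t) := by
    unfold Fg
    have h1 : Continuous fun q : ℝ × ℝ => gauge K0 (q - x0) := hgc.comp (by fun_prop)
    fun_prop
  set K' : Set (ℝ × ℝ) := {q | Fg K0 x0 t q ≤ 1 + t * R} with hK'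
  -- the basic estimates
  have hmid : ∀ p q : ℝ × ℝ, ∀ a b : ℝ, 0 ≤ a → 0 ≤ b → a + b = 1 →
      Fg K0 x0 t (a • p + b • q) ≤ a * Fg K0 x0 t p + b * Fg K0 x0 t q -
        t * (a * b) * ((p - q).1 ^ 2 + (p - q).2 ^ 2) := by
    intro p q a b ha hb hab
    have e : a • p + b • q - x0 = a • (p - x0) + b • (q - x0) := by
      have : x0 = a • x0 + b • x0 := by rw [← add_smul, hab, one_smul]
      nth_rewrite 1 [this]
      rw [smul_sub, smul_sub]; abel
    have h1 : gauge K0 (a • (p - x0) + b • (q - x0)) ≤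
        a * gauge K0 (p - x0) + b * gauge K0 (q - x0) := by
      refine (gauge_add_le hconv habs _ _).trans ?_
      rw [gauge_smul_of_nonneg ha, gauge_smul_of_nonneg hb, smul_eq_mul, smul_eq_mul]
    have h2 : gauge K0 (a • (p - x0) + b • (q - x0)) ^ 2 ≤
        a * gauge K0 (p - x0) ^ 2 + b * gauge K0 (q - x0) ^ 2 := by
      have h3 : gauge K0 (a • (p - x0) + b • (q - x0)) ^ 2 ≤
          (a * gauge K0 (p - x0) + b * gauge K0 (q - x0)) ^ 2 :=
        pow_le_pow_left₀ (hg0 _) h1 2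
      refine h3.trans ?_
      have hb' : b = 1 - a := by linarith
      subst hb'
      nlinarith [mul_nonneg (mul_nonneg ha hb)
        (sq_nonneg (gauge K0 (p - x0) - gauge K0 (q - x0)))]
    unfold Fg
    rw [e]
    have h4 : (a • (p - x0) + b • (q - x0)).1 ^ 2 + (a • (p - x0) + b • (q - x0)).2 ^ 2 =
        a * ((p - x0).1 ^ 2 + (p - x0).2 ^ 2) + b * ((q - x0).1 ^ 2 + (q - x0).2 ^ 2) -
          a * b * ((p - q).1 ^ 2 + (p - q).2 ^ 2) := by
      have hb' : b = 1 - a := by linarith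
      subst hb'
      simp only [Prod.fst_add, Prod.snd_add, Prod.smul_fst, Prod.smul_snd, Prod.fst_sub,
        Prod.snd_sub, smul_eq_mul]
      ring
    rw [h4]
    nlinarith [h2]
  have hopen : IsOpen {q | Fg K0 x0 t q < 1 + t * R} := isOpen_lt hFc continuous_const
  have hint : {q | Fg K0 x0 t q < 1 + t * R} ⊆ interior K' :=
    interior_maximal (fun q hq => (show Fg K0 x0 t q ≤ 1 + t * R from le_of_lt hq)) hopen
  -- inclusion in the dilate
  have hsub : K' ⊆ (fun q => q - x0) ⁻¹' (c • K0) := by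
    intro q hq
    have hq' : Fg K0 x0 t q ≤ 1 + t * R := hq
    unfold Fg at hq'
    have h1 : gauge K0 (q - x0) ^ 2 ≤ c ^ 2 := by
      rw [hc2]
      have : 0 ≤ t * ((q - x0).1 ^ 2 + (q - x0).2 ^ 2) := by positivity
      linarith
    have h2 : gauge K0 (q - x0) ≤ c := by
      exact (pow_le_pow_iff_left₀ (hg0 _) hc0.le two_ne_zero).1 h1
    show q - x0 ∈ c • K0
    rw [mem_smul_set_iff_inv_smul_mem₀ hc0.ne']
    rw [← hg1, gauge_smul_of_nonneg (inv_nonneg.2 hc0.le), smul_eq_mul, inv_mul_le_iff₀ hc0]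
    linarith
  have hK0cpt : IsCompact K0 := by
    have e : K0 = (fun q => q - x0) '' K := by
      ext y
      constructor
      · intro hy
        exact ⟨y + x0, hy, by simp⟩
      · rintro ⟨q, hq, rfl⟩
        show q - x0 + x0 ∈ K
        simpa using hq
    rw [e]
    exact hK.compact.image (by fun_prop)
  have hcpt : IsCompact K' := by
    have h1 : IsCompact ((fun q => q + x0) '' (c • K0)) :=
      (hK0cpt.smul c).image (by fun_prop)
    refine h1.of_isClosed_subset (isClosed_le hFc continuous_const) ?_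
    intro q hq
    exact ⟨q - x0, hsub hq, by simp⟩
  refine ⟨K', ⟨⟨?_, hcpt, ?_⟩, ?_⟩, ?_, ?_⟩
  · -- convex
    intro p hp q hq a b ha hb hab
    have h1 := hmid p q a b ha hb hab
    have hp' : Fg K0 x0 t p ≤ 1 + t * R := hp
    have hq' : Fg K0 x0 t q ≤ 1 + t * R := hq
    have h2 : 0 ≤ t * (a * b) * ((p - q).1 ^ 2 + (p - q).2 ^ 2) := by positivity
    show Fg K0 x0 t (a • p + b • q) ≤ 1 + t * R
    have h3 : a * Fg K0 x0 t p + b * Fg K0 x0 t q ≤ a * (1 + t * R) + b * (1 + t * R) :=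
      add_le_add (mul_le_mul_of_nonneg_left hp' ha) (mul_le_mul_of_nonneg_left hq' hb)
    have h4 : a * (1 + t * R) + b * (1 + t * R) = 1 + t * R := by rw [← add_mul, hab, one_mul]
    linarith
  · -- interior
    refine ⟨x0, hint ?_⟩
    show Fg K0 x0 t x0 < 1 + t * R
    unfold Fg
    rw [sub_self, gauge_zero]
    simpa using hpos
  · -- strict
    intro p hp q hq hpq
    apply hint
    show Fg K0 x0 t ((1 / 2 : ℝ) • (p + q)) < 1 + t * R
    have h1 := hmid p q (1 / 2) (1 / 2) (by norm_num) (by norm_num) (by norm_num)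
    rw [← smul_add] at h1
    have hp' : Fg K0 x0 t p ≤ 1 + t * R := hp
    have hq' : Fg K0 x0 t q ≤ 1 + t * R := hq
    have h2 : 0 < (p - q).1 ^ 2 + (p - q).2 ^ 2 := by
      by_contra h3
      push Not at h3
      apply hpq
      have h4 : (p - q).1 ^ 2 = 0 := by nlinarith [sq_nonneg (p - q).1, sq_nonneg (p - q).2]
      have h5 : (p - q).2 ^ 2 = 0 := by nlinarith [sq_nonneg (p - q).1, sq_nonneg (p - q).2]
      have h6 : (p - q).1 = 0 := by simpa using h4
      have h7 : (p - q).2 = 0 := by simpa using h5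
      rw [Prod.fst_sub] at h6
      rw [Prod.snd_sub] at h7
      exact Prod.ext (by linarith) (by linarith)
    have h3 : 0 < t * (1 / 2 * (1 / 2)) * ((p - q).1 ^ 2 + (p - q).2 ^ 2) := by positivity
    linarith
  · -- inclusion
    intro q hq
    show Fg K0 x0 t q ≤ 1 + t * R
    unfold Fg
    have h1 : gauge K0 (q - x0) ≤ 1 := by
      rw [hg1]
      show q - x0 + x0 ∈ K
      simpa using hq
    have h2 := hR q hq
    have h3 : gauge K0 (q - x0) ^ 2 ≤ 1 := pow_le_one₀ (hg0 _) h1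
    have h4 : t * ((q - x0).1 ^ 2 + (q - x0).2 ^ 2) ≤ t * R := mul_le_mul_of_nonneg_left h2 ht0.le
    linarith
  · -- volume
    have h1 : volume K' ≤ volume (c • K0) := by
      refine (measure_mono hsub).trans (le_of_eq ?_)
      have := measure_preimage_add_right (volume : Measure (ℝ × ℝ)) (-x0) (c • K0)
      simpa [sub_eq_add_neg] using this
    have h2 : volume K0 = volume K := measure_preimage_add_right volume x0 K
    have h3 : volume (c • K0) = ENNReal.ofReal (1 + t * R) * volume K := by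
      rw [Measure.addHaar_smul]
      have hfr : Module.finrank ℝ (ℝ × ℝ) = 2 := by simp
      rw [hfr, hc2, abs_of_pos hpos, h2]
    refine h1.trans ?_
    rw [h3]
    have h4 : volume K = ENNReal.ofReal V := (ENNReal.ofReal_toReal hfin).symm
    rw [h4, ← ENNReal.ofReal_mul hpos.le, ← ENNReal.ofReal_add hV0 hδ.le]
    apply ENNReal.ofReal_le_ofReal
    nlinarith

end Pool.Agent.Helper61.PHU
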